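import Pool.Agent.helper17.EXT.Spec

/-!
# MP_561ff4_al, project EXT, row GEP: the group is generated by the relative simple root elements
-/

set_option autoImplicit false

open Finset

namespace Pool.Agent.EXT

open Pool.Agent.EXC

theorem GEP_nbr : ∀ α : Fin 6 → ℤ, ip C6 α α = 2 → ∃ β, ip C6 β β = 2 ∧ ip C6 α β = -1 :=
  (f_NBR 6 C6 1 th ![0, 2, 3, 4, 5] f_DE6.2).1

/-- transport along a chain of relative reflections -/
theorem GEP_chain (hWST : WST_stmt) (hNRS : NRS_stmt) {K : Type} [Field K] (τ : K ≃+* K)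
    (hτ : ∀ x, τ (τ x) = x) (p q : (Fin 6 → ℤ) × (Fin 6 → ℤ)) (h : WS p q) (hp : ip C6 p.1 p.1 = 2) :
    ∃ k ∈ GP τ, ∃ s : ℤ, (s = 1 ∨ s = -1) ∧ k (E C6 p.1) = (s : K) • (E C6 q.1 : Lm C6 K) := by
  induction h with
  | refl => exact ⟨1, one_mem _, 1, Or.inl rfl, by simp⟩
  | @tail q r hpq hqr ih =>
    obtain ⟨k, hk, s, hs, hks⟩ := ih
    obtain ⟨i, rfl⟩ := hqr
    have hq : ip C6 q.1 q.1 = 2 := by
      rw [(hWST.2.2 p q hpq).2.1, hp]
    obtain ⟨g, hg, hgE⟩ := hNRS K τ hτ i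
    obtain ⟨s', hs', hgs⟩ := hgE q.1 hq
    refine ⟨g * k, mul_mem hg hk, s * s', ?_, ?_⟩
    · rcases hs with rfl | rfl <;> rcases hs' with rfl | rfl <;> simp
    · rw [LinearEquiv.mul_apply, hks, map_smul, hgs, smul_smul]
      push_cast
      rfl

theorem GEP_sign {K : Type} [Field K] (τ : K ≃+* K) (s : ℤ) : τ (s : K) = (s : K) := map_intCast τ s

theorem GEP (hRTF : RTF_stmt) (hWST : WST_stmt) (hSIG : SIG_stmt) (hSGR : SGR_stmt) (hNRS : NRS_stmt) : GEP_stmt := by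
  intro K _ τ hτ
  obtain ⟨-, -, -, -, hpvsr, -, hsn, -, -, hsnsr, -, -, -, -, -⟩ := hRTF
  obtain ⟨-, -, -, -, hXY, hGS⟩ := hSGR K τ hτ
  obtain ⟨-, hsm, -, -, -, hsE, -, -⟩ := hSIG K τ hτ
  have hle : GP τ ≤ GS τ := by
    refine (Subgroup.closure_le _).2 ?_
    rintro g ⟨i, t, h⟩
    exact hXY i t g h
  have hex : ∀ γ : Fin 6 → ℤ, ip C6 γ γ = 2 → Xtr C6 (E C6 γ : Lm C6 K) := by
    intro γ hγ
    have h1 := f_EXF 6 C6 K GEP_nbr
    exact (h1.2.2.1 _ (h1.2.1 γ hγ)).1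
  have hsr : ∀ i : Fin 6, ip C6 (sr i) (sr i) = 2 := by
    decide +kernel
  -- conjugation of root elements
  have hconj : ∀ (k : Lm C6 K ≃ₗ[K] Lm C6 K) (γ δ : Fin 6 → ℤ) (c t : K) (v : Lm C6 K), k ∈ GP τ →
      ip C6 γ γ = 2 → ip C6 δ δ = 2 → k (E C6 γ) = c • (E C6 δ : Lm C6 K) →
      k (xe C6 (E C6 γ) t v) = xe C6 (E C6 δ) (c * t) (k v) := by
    intro k γ δ c t v hk hγ hδ hkE
    have hau : Au C6 k := (hGS k (hle hk)).2.1
    rw [((f_XAU 6 C6 K _ (hex γ hγ)).2.2.1 k hau).2 t v, hkE,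
      ((f_XAU 6 C6 K _ (hex δ hδ)).2.2.2 c).2 t (k v)]
  refine le_antisymm ((Subgroup.closure_le _).2 ?_) hle
  have hfin : ∀ g k : Lm C6 K ≃ₗ[K] Lm C6 K, k ∈ GP τ → k * g * k⁻¹ ∈ GP τ → g ∈ GP τ := by
    intro g k hk h
    have e : g = k⁻¹ * (k * g * k⁻¹) * k := by group
    rw [e]
    exact mul_mem (mul_mem (inv_mem hk) h) hk
  rintro g (⟨β, t, hβ, ht, hg⟩ | ⟨γ, t, hγ, hg⟩)
  · -- long roots
    have hL1 : LR (sr 1 : Fin 6 → ℤ) := ⟨hsr 1, hpvsr 1⟩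
    have hW := hWST.1 β β (sr 1) (sr 1) hβ hβ hL1 hL1 (by rw [hβ.1, hsr 1])
    obtain ⟨k, hk, s, -, hks⟩ := GEP_chain hWST hNRS τ hτ _ _ hW hβ.1
    refine hfin g k hk (Subgroup.subset_closure ⟨1, (s : K) * t, Or.inl (Or.inl ⟨rfl, ?_, ?_⟩)⟩)
    · rw [map_mul, GEP_sign, ht]
    · intro v
      show k (g (k⁻¹ v)) = _
      rw [hg, hconj k β (sr 1) s t _ hk hβ.1 (hsr 1) hks]
      congr 1
      exact LinearEquiv.apply_symm_apply k v
  · -- short roots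
    have hW := hWST.2.1 γ hγ
    obtain ⟨k, hk, s, -, hks⟩ := GEP_chain hWST hNRS τ hτ _ _ hW hγ.1
    have hks' : k (E C6 γ) = (s : K) • (E C6 (sr 0) : Lm C6 K) := hks
    have hσ := (hGS k (hle hk)).2.2 (E C6 γ)
    have hsq : (sn γ : K) * (sn γ : K) = 1 := by
      rcases hsn γ with h | h <;> rw [h] <;> simp
    have hpvE : k (E C6 (pv γ)) = ((sn γ : K) * (s : K)) • (E C6 (sr 5) : Lm C6 K) := by
      rw [hsE γ hγ.1, map_smul, hks', hsm, GEP_sign, hsE (sr 0) (hsr 0), hsnsr 0, hpvsr 0] at hσ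
      have h1 : (sn γ : K) • ((sn γ : K) • k (E C6 (pv γ))) =
          (sn γ : K) • ((s : K) • (((1 : ℤ) : K) • (E C6 (sr (pn 0)) : Lm C6 K))) := by
        rw [hσ]
      rw [smul_smul, hsq, one_smul] at h1
      rw [h1, Int.cast_one, one_smul, smul_smul]
      rfl
    have hpv2 : ip C6 (pv γ) (pv γ) = 2 := by
      by_contra hcon
      have h0 : (E C6 (pv γ) : Lm C6 K) = 0 := by
        unfold E
        rw [dif_neg hcon]
      rw [h0, map_zero] at hpvE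
      have h2 : ((sn γ : K) * (s : K)) ≠ 0 := by
        refine mul_ne_zero ?_ ?_
        · intro h; rw [h, zero_mul] at hsq; exact zero_ne_one hsq
        · intro h
          rw [h, zero_smul] at hks'
          have h3 : (E C6 γ : Lm C6 K) = 0 := k.map_eq_zero_iff.1 hks'
          exact ((f_EXF 6 C6 K GEP_nbr).2.2.1 _ ((f_EXF 6 C6 K GEP_nbr).2.1 γ hγ.1)).2.1 h3
      have h3 := smul_eq_zero.1 hpvE.symm
      rcases h3 with h3 | h3
      · exact h2 h3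
      · exact ((f_EXF 6 C6 K GEP_nbr).2.2.1 _ ((f_EXF 6 C6 K GEP_nbr).2.1 (sr 5) (hsr 5))).2.1 h3
    refine hfin g k hk (Subgroup.subset_closure ⟨0, (s : K) * t, Or.inl (Or.inr ⟨by decide, ?_⟩)⟩)
    intro v
    show k (g (k⁻¹ v)) = _
    rw [hg, hconj k γ (sr 0) s t _ hk hγ.1 (hsr 0) hks', hconj k (pv γ) (sr 5) _ _ _ hk hpv2 (hsr 5) hpvE]
    have e1 : k (k⁻¹ v) = v := LinearEquiv.apply_symm_apply k v
    have e2 : (sn γ : K) * (s : K) * ((sn γ : K) * τ t) = (sn (sr 0) : K) * τ ((s : K) * t) := by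
      rw [hsnsr 0, map_mul, GEP_sign, Int.cast_one, one_mul]
      calc (sn γ : K) * (s : K) * ((sn γ : K) * τ t) = ((sn γ : K) * (sn γ : K)) * ((s : K) * τ t) := by ring
        _ = _ := by rw [hsq, one_mul]
    have e3 : pv (sr 0 : Fin 6 → ℤ) = sr 5 := hpvsr 0
    rw [e1, e2, e3]

end Pool.Agent.EXT
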